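import Pool.Agent.R509.HM.Mob

/-!
# Correlations of the Möbius function with arbitrary weights in almost all short intervals

The theorem of Matomäki and Radziwiłł (with progressions) is used in the form of `Pool.Agent.TH823.MRS`, from the
starting files. From Mathlib: `ArithmeticFunction.moebius`, the Möbius function.
-/

set_option autoImplicit false

namespace Pool.Agent.Results.MP_c59857_nt.HankelMatrices

open Finset

/-- The Möbius function. -/
noncomputable def mu (n : ℕ) : ℝ := ((ArithmeticFunction.moebius n : ℤ) : ℝ)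

/-- The operator norm of the Hankel matrix with the entries `μ(x + a + b)`, `1 ≤ a, b ≤ H`, is at most `T`: for all
complex numbers `v 1, ..., v H`, `∑_{b ≤ H} |∑_{a ≤ H} v a μ(x + a + b)| ^ 2 ≤ T ^ 2 ∑_{a ≤ H} |v a| ^ 2`. -/
def NormLe (x H : ℕ) (T : ℝ) : Prop :=
  ∀ v : ℕ → ℂ, ∑ b ∈ Icc 1 H, ‖∑ a ∈ Icc 1 H, v a * mu (x + a + b)‖ ^ 2 ≤ T ^ 2 * ∑ a ∈ Icc 1 H, ‖v a‖ ^ 2

open Classical in
/-- Let `ε > 0`. There is a `C` such that for all `H ≥ C` and all `X ≥ C H` (so `H` may be bounded) the Hankel matrix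
`(μ(x + a + b))`, `1 ≤ a, b ≤ H`, has operator norm at most `(12/π³ + ε) H` for all but at most `ε X` of the
integers `x ≤ X`. Here `12/π³ = (2/π)(6/π²) = 0.387...`, and `6/π²` is the density of the squarefree numbers.

So in almost all short intervals the shifts `μ(n + b)`, `n = x + a`, of the Möbius function have correlations with
arbitrary weights `v a` of absolute value at most `1`, which may depend on the interval, which are in quadratic mean
over `b ≤ H` at most `12/π³ + ε`. For example one can take `v a = ∏ i, μ(x + a + α i) ^ (e i)` with any number of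
factors. -/
theorem result (ε : ℝ) (hε : 0 < ε) :
    ∃ C : ℕ, ∀ H X : ℕ, C ≤ H → C * H ≤ X →
      (((Icc 1 X).filter (fun x => ¬ NormLe x H ((12 / Real.pi ^ 3 + ε) * H))).card : ℝ) ≤ ε * X := by
  set δ : ℝ := min ε (ε ^ 2) with hδ
  have hδ0 : 0 < δ := lt_min hε (by positivity)
  obtain ⟨C, hC⟩ := Pool.Agent.R509.HM.mob_hankel δ hδ0
  refine ⟨C, fun H X hH hX => ?_⟩
  have h1 := hC H X hH hX
  have h2 : δ * X ≤ ε * X := mul_le_mul_of_nonneg_right (min_le_left _ _) (Nat.cast_nonneg X)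
  refine le_trans ?_ (h1.trans h2)
  have h3 : (Icc 1 X).filter (fun x => ¬ NormLe x H ((12 / Real.pi ^ 3 + ε) * H)) ⊆
      (Icc 1 X).filter (fun x => ¬ ∀ v : ℕ → ℂ,
        ∑ b ∈ Icc 1 H, ‖∑ a ∈ Icc 1 H, v a * Pool.Agent.R509.HM.mq 0 (x + a + b)‖ ^ 2 ≤
        ((12 / Real.pi ^ 3) ^ 2 + δ) * H ^ 2 * ∑ a ∈ Icc 1 H, ‖v a‖ ^ 2) := by
    intro x hx
    rw [mem_filter] at hx ⊢
    refine ⟨hx.1, fun hcon => hx.2 fun v => ?_⟩
    refine (hcon v).trans ?_
    apply mul_le_mul_of_nonneg_right _ (by positivity)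
    rw [mul_pow]
    apply mul_le_mul_of_nonneg_right _ (by positivity)
    have hpi := Real.pi_pos
    have h4 : δ ≤ ε ^ 2 := min_le_right _ _
    have h5 : 0 ≤ 12 / Real.pi ^ 3 * ε := by positivity
    have e1 : (12 / Real.pi ^ 3 + ε) ^ 2 = (12 / Real.pi ^ 3) ^ 2 + 2 * (12 / Real.pi ^ 3 * ε) + ε ^ 2 := by ring
    rw [e1]
    linarith
  exact_mod_cast card_le_card h3

end Pool.Agent.Results.MP_c59857_nt.HankelMatrices
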