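import Pool.Agent.TH823.Fam.Fam2
import Pool.Agent.R459.Fam

/-!
# Autocorrelations of the Möbius function at every scale, with arbitrary powers of the logarithm, near almost all
members of thin families of shifts

From the starting files: the bounds for the exponential sums over the Möbius function (Davenport's theorem with
arbitrary powers of the logarithm) and the bilinear inequality for families of small additive energy
(`Pool.Agent.H373R2.T7`, `Pool.Agent.H807R2.Dav`, `Pool.Agent.TH823.Fam`).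
From Mathlib: `ArithmeticFunction.moebius`: the Möbius function; `Finset.Icc 1 X`: the integers `n` with
`1 ≤ n ≤ X`; `Polynomial ℤ`: the polynomials with integer coefficients; `f.eval m`: the value at `m`.
-/

set_option autoImplicit false

namespace Pool.Agent.Results.MP_c59857_nt.ThinFamiliesEveryScale

open Finset

/-- The Möbius function on the integers, `0` at the integers `m ≤ 0`. -/
def mu (m : ℤ) : ℤ := if 1 ≤ m then ArithmeticFunction.moebius m.toNat else 0

/-- The additive energy of order `p` of the family `s 1, ..., s x`: the number of the solutions of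
`s (v 1) + ... + s (v p) = s (w 1) + ... + s (w p)` with all `v i`, `w i` in `{1, ..., x}`. -/
def energy (p x : ℕ) (s : ℕ → ℤ) : ℕ :=
  (((Fintype.piFinset fun _ : Fin p => Icc 1 x) ×ˢ (Fintype.piFinset fun _ : Fin p => Icc 1 x)).filter
    (fun q => ∑ i, s (q.1 i) = ∑ i, s (q.2 i))).card

open Classical in
/-- The number of the `m` in `{1, ..., x}` with the property `E`. -/
noncomputable def num (x : ℕ) (E : ℕ → Prop) : ℝ := (((Icc 1 x).filter E).card : ℝ)

/-- The property `P` holds for all the integers at a distance of at most `log ^ W N` from `b`. -/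
def Near (W N : ℕ) (P : ℤ → Prop) (b : ℤ) : Prop := ∀ b' : ℤ, |((b' - b : ℤ) : ℝ)| ≤ Real.log N ^ W → P b'

/-- The shift `b` is good: for all `l` and all `X` with `a l * X ≤ B N` the sum of `g l n * μ (a l * n + b)` over
the `n ≤ X` is at most `N / log ^ U N`. -/
def Good (B U N : ℕ) {L : ℕ} (a : Fin L → ℕ) (g : Fin L → ℕ → ℂ) (b : ℤ) : Prop :=
  ∀ l, ∀ X : ℕ, a l * X ≤ B * N → ‖∑ n ∈ Icc 1 X, g l n * (mu (a l * n + b) : ℂ)‖ ≤ N / Real.log N ^ U

/-- At most `log ^ K N` weights `g l` for the linear forms `a l * n + b`, all of them bounded by `log ^ K N`. -/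
def Weights (K N : ℕ) {L : ℕ} (a : Fin L → ℕ) (g : Fin L → ℕ → ℂ) : Prop :=
  (L : ℝ) ≤ Real.log N ^ K ∧ (∀ l, 1 ≤ a l) ∧ ∀ l n, ‖g l n‖ ≤ Real.log N ^ K

/-- For all `X ≤ B N` the sum of `μ (n + α 1) ^ (e 1) ⋯ μ (n + α r) ^ (e r) * μ (n + b)` over the `n ≤ X` is at most
`N / log ^ U N`. -/
def Chowla (B U N : ℕ) {r : ℕ} (α : Fin r → ℤ) (e : Fin r → ℕ) (b : ℤ) : Prop :=
  ∀ X : ℕ, X ≤ B * N →
    |((∑ n ∈ Icc 1 X, (∏ i, mu (n + α i) ^ e i) * mu (n + b) : ℤ) : ℝ)| ≤ N / Real.log N ^ U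

lemma num_eq (x : ℕ) (E : ℕ → Prop) [DecidablePred E] : num x E = ((Icc 1 x).filter E).card := by
  unfold num
  congr!

lemma num_mono {x : ℕ} {E E' : ℕ → Prop} (h : ∀ m, E m → E' m) : num x E ≤ num x E' := by
  classical
  rw [num_eq, num_eq, Nat.cast_le]
  apply card_le_card
  intro m hm
  rw [mem_filter] at hm ⊢
  exact ⟨hm.1, h m hm.2⟩

lemma mu_exI (m : ℤ) : (mu m : ℂ) = Pool.Agent.H373R2.T7.exI Pool.Agent.H373R2.T7.muC m := by
  unfold mu Pool.Agent.H373R2.T7.exI Pool.Agent.H373R2.T7.muC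
  split_ifs <;> simp

theorem families (B C K W U p : ℕ) : ∃ N₀ : ℕ, ∀ N : ℕ, N₀ ≤ N → ∀ (x : ℕ) (s : ℕ → ℤ),
    (∀ m ∈ Icc 1 x, |s m| ≤ B * N) → (energy p x s : ℝ) * N ≤ Real.log N ^ C * (x : ℝ) ^ (2 * p) →
    ∀ (L : ℕ) (a : Fin L → ℕ) (g : Fin L → ℕ → ℂ), Weights K N a g →
      num x (fun m => ¬ Near W N (Good B U N a g) (s m)) ≤ x / Real.log N ^ U := by
  classical
  obtain ⟨N₀, h⟩ := Pool.Agent.R459.fam_near Pool.Agent.H373R2.T7.muC Pool.Agent.H373R2.T7.muC_norm
    Pool.Agent.H373R2.T7.sup_muC p B C K W U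
  refine ⟨N₀, fun N hN x s hs hE L a g hw => ?_⟩
  obtain ⟨hL, ha, hg⟩ := hw
  have h1 := h N hN x s hs hE L hL (fun l => if h : l < L then a ⟨l, h⟩ else 1)
    (fun l => if h : l < L then g ⟨l, h⟩ else fun _ => 0) (by
    intro l hl
    simp only [hl, dif_pos]
    exact ha _) (by
    intro l hl n _ _
    simp only [hl, dif_pos]
    exact hg _ n) (fun m => ¬ Near W N (Good B U N a g) (s m)) (by
    intro m _ hm
    unfold Near Good at hm
    push Not at hm
    obtain ⟨b, hb, l, X, hX, h2⟩ := hm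
    refine ⟨b - s m, hb, l, l.2, X, by simpa only [l.2, dif_pos] using hX, lt_of_lt_of_eq h2 ?_⟩
    simp only [l.2, dif_pos]
    congr 1
    apply sum_congr rfl
    intro n _
    rw [mu_exI]
    congr 2
    push_cast
    ring)
  rw [num_eq]
  exact h1

/-- Let `B`, `C`, `K`, `W` and `U` be fixed.

* Let `N` be large, and let `s 1, ..., s x` be an arbitrary family of integers in `[-B N, B N]` whose additive
  energy of some fixed order `p` is at most `log ^ C N` times the minimal possible size `x ^ (2 p) / N`. Let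
  `a l ≥ 1` and the weights `g l` be arbitrary (at most `log ^ K N` of them, bounded by `log ^ K N`). Then all
  the `m ≤ x` with at most `x / log ^ U N` exceptions have the following property: for ALL the shifts `b` at a
  distance of at most `log ^ W N` from `s m`, all `l` and all `X ≤ B N / a l`,
  `|∑ n ≤ X, g l n * μ (a l * n + b)| ≤ N / log ^ U N`.
* In particular this holds for the shifts `b` near the values `c + f m`, `m ≤ x`, where `f` is a fixed
  nonconstant polynomial with integer coefficients, of degree `d`, `N / log ^ C N ≤ x ^ d ≤ B N` and `|c| ≤ B N`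
  (and, as `U` is arbitrary, for almost all prime arguments `m`).
* The sums of Chowla's conjecture: let `α 1, ..., α r` be arbitrary integers (which may depend on `N`), and
  `e i ≥ 0`. For all the `m ≤ x` up to `x / log ^ U N` exceptions, for all `b` at a distance of at most
  `log ^ W N` from `c + f m` and all `X ≤ B N`,
  `|∑ n ≤ X, μ (n + α 1) ^ (e 1) ⋯ μ (n + α r) ^ (e r) * μ (n + b)| ≤ N / log ^ U N`. -/
theorem result (B C K W U : ℕ) :
    (∀ p : ℕ, ∃ N₀ : ℕ, ∀ N : ℕ, N₀ ≤ N → ∀ (x : ℕ) (s : ℕ → ℤ),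
      (∀ m ∈ Icc 1 x, |s m| ≤ B * N) → (energy p x s : ℝ) * N ≤ Real.log N ^ C * (x : ℝ) ^ (2 * p) →
      ∀ (L : ℕ) (a : Fin L → ℕ) (g : Fin L → ℕ → ℂ), Weights K N a g →
        num x (fun m => ¬ Near W N (Good B U N a g) (s m)) ≤ x / Real.log N ^ U) ∧
    (∀ f : Polynomial ℤ, 1 ≤ f.natDegree → ∃ N₀ : ℕ, ∀ N : ℕ, N₀ ≤ N → ∀ x : ℕ,
      x ^ f.natDegree ≤ B * N → (N : ℝ) ≤ Real.log N ^ C * (x : ℝ) ^ f.natDegree → ∀ c : ℤ, |c| ≤ B * N →
      (∀ (L : ℕ) (a : Fin L → ℕ) (g : Fin L → ℕ → ℂ), Weights K N a g →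
        num x (fun m => ¬ Near W N (Good B U N a g) (c + f.eval (m : ℤ))) ≤ x / Real.log N ^ U) ∧
      (∀ (r : ℕ) (α : Fin r → ℤ) (e : Fin r → ℕ),
        num x (fun m => ¬ Near W N (Chowla B U N α e) (c + f.eval (m : ℤ))) ≤ x / Real.log N ^ U)) := by
  classical
  refine ⟨fun p => families B C K W U p, fun f hf => ?_⟩
  obtain ⟨p, B', hB, N1, h1⟩ := Pool.Agent.TH823.Fam.poly_family f hf B C
  obtain ⟨N2, h2⟩ := families B' (C + 1) K W U p
  obtain ⟨N3, h3⟩ := Pool.Agent.H373R2.T7.ev_L' 1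
  have hgen : ∀ N : ℕ, N1 + N2 + N3 ≤ N → ∀ x : ℕ,
      x ^ f.natDegree ≤ B * N → (N : ℝ) ≤ Real.log N ^ C * (x : ℝ) ^ f.natDegree → ∀ c : ℤ, |c| ≤ B * N →
      ∀ (L : ℕ) (a : Fin L → ℕ) (g : Fin L → ℕ → ℂ), Weights K N a g →
        num x (fun m => ¬ Near W N (Good B U N a g) (c + f.eval (m : ℤ))) ≤ x / Real.log N ^ U := by
    intro N hN x hx1 hx2 c hc L a g hw
    obtain ⟨h4, h5⟩ := h1 N (by omega) x hx1 hx2 c hc
    refine le_trans ?_ (h2 N (by omega) x (fun m => c + f.eval (m : ℤ)) h4 h5 L a g hw)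
    refine num_mono fun m hm => fun hgood => hm fun b hb l X hX => hgood b hb l X (hX.trans ?_)
    exact Nat.mul_le_mul_right _ hB
  refine ⟨N1 + N2 + N3, fun N hN x hx1 hx2 c hc => ⟨hgen N hN x hx1 hx2 c hc, fun r α e => ?_⟩⟩
  have hL := h3 N (by omega)
  have hLK : (1 : ℝ) ≤ Real.log N ^ K := one_le_pow₀ hL
  have hmu : ∀ m : ℤ, ‖(mu m : ℂ)‖ ≤ 1 := by
    intro m
    rw [mu_exI]
    unfold Pool.Agent.H373R2.T7.exI
    split_ifs
    · exact Pool.Agent.H373R2.T7.muC_norm _
    · simp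
  refine le_trans ?_ (hgen N hN x hx1 hx2 c hc 1 (fun _ => 1)
    (fun _ n => ∏ i, (mu (n + α i) : ℂ) ^ e i) ⟨by simpa using hLK, fun _ => le_refl _, ?_⟩)
  · refine num_mono fun m hm => fun hgood => hm fun b hb X hX => ?_
    have h6 := hgood b hb 0 X (by simpa using hX)
    refine le_trans (le_of_eq ?_) h6
    rw [← Real.norm_eq_abs, ← Complex.norm_real, Complex.ofReal_intCast]
    congr 1
    push_cast
    apply sum_congr rfl
    intro n _
    rw [one_mul]
  · intro _ n
    rw [norm_prod]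
    refine le_trans (prod_le_one (fun i _ => norm_nonneg _) fun i _ => ?_) hLK
    rw [norm_pow]
    exact pow_le_one₀ (norm_nonneg _) (hmu _)

end Pool.Agent.Results.MP_c59857_nt.ThinFamiliesEveryScale
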