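import Pool.Agent.R318.MU.Fin

/-!
The moments of the short sums of the products of Chowla's conjecture for the Moebius function, when the
shifts with exponent one form an arithmetic progression.
-/

set_option autoImplicit false

namespace Pool.Agent.Results.MP_c59857_nt.WindowMeans

open Finset Filter Topology

/-- the product of the problem -/
noncomputable def P {r : ℕ} (α : Fin r → ℤ) (ε : Fin r → ℕ) (n : ℕ) : ℝ :=
  ∏ i, ((ArithmeticFunction.moebius ((n : ℤ) + α i).toNat : ℤ) : ℝ) ^ ε i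

/-- the shifts with exponent one are exactly `β, β + d, …, β + (k - 1) d` -/
def IsAP {r : ℕ} (α : Fin r → ℤ) (ε : Fin r → ℕ) (β : ℤ) (d k : ℕ) : Prop :=
  ∀ a : ℤ, (∃ i, ε i = 1 ∧ α i = a) ↔ ∃ t : ℕ, t < k ∧ a = β + t * d

/-- the proportion of the `n ≤ N` with `P n ≠ 0` -/
noncomputable def dA {r : ℕ} (α : Fin r → ℤ) (ε : Fin r → ℕ) (N : ℕ) : ℝ :=
  (∑ n ∈ Icc 1 N, |P α ε n|) / N

/-- the proportion of the `n ≤ N` with `P n ≠ 0` and `P (n + d) ≠ 0` -/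
noncomputable def dB {r : ℕ} (α : Fin r → ℤ) (ε : Fin r → ℕ) (d N : ℕ) : ℝ :=
  (∑ n ∈ Icc 1 N, |P α ε n * P α ε (n + d)|) / N

open Classical in
/-- Outside one set `𝓔` of scales of logarithmic density zero, the average over `x ≤ N` of the `j`-th
power of the mean of the products over `(x, x + H]` is at most `(A ^ j + (A - B) ^ j) / 2 + η`, where
`A` and `B` are the proportions of the `n ≤ N` with `P n ≠ 0` and with `P n * P (n + d) ≠ 0`. -/
theorem result : ∃ 𝓔 : Set ℕ,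
    Tendsto (fun X : ℕ => (∑ N ∈ Icc 1 X, if N ∈ 𝓔 then (1 : ℝ) / N else 0) / Real.log X)
      atTop (𝓝 0) ∧
    ∀ (r j : ℕ) (η : ℝ), 0 < η →
      ∀ (α : Fin r → ℤ) (ε : Fin r → ℕ) (β : ℤ) (d k : ℕ), Function.Injective α →
        (∀ i, ε i = 1 ∨ ε i = 2) → 1 ≤ k → 1 ≤ d → IsAP α ε β d k →
        ∃ C : ℕ, ∀ H N : ℕ, C ≤ H → C * H ≤ N → N ∉ 𝓔 →
          ∑ x ∈ Icc 1 N, |∑ n ∈ Ioc x (x + H), P α ε n| ^ j ≤
            ((dA α ε N ^ j + (dA α ε N - dB α ε d N) ^ j) / 2 + η) * H ^ j * N := by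
  obtain ⟨E, h1, h2⟩ := Pool.Agent.R318.MU.all_exc
  refine ⟨E, h1, fun r j η hη α ε β d k hα hε hk hd hap => ?_⟩
  obtain ⟨C, hC⟩ := Pool.Agent.R318.MU.fin1 h2 r j η hη α ε β d k hα hε hk hd hap
  refine ⟨C, fun H N hH hN hNE => ?_⟩
  have h := hC H N hH hN hNE
  have e : dA α ε N - dB α ε d N = (∑ n ∈ Icc 1 N, |P α ε n| - ∑ n ∈ Icc 1 N, |P α ε n * P α ε (n + d)|) / N := by
    unfold dA dB
    rw [sub_div]
  rw [e]
  exact h

end Pool.Agent.Results.MP_c59857_nt.WindowMeans
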