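import Pool.Agent.R318.MU.Fin

/-!
All the moments of the short sums of the products of Chowla's conjecture for the Moebius function, when
the shifts with exponent one form an arithmetic progression whose difference is divisible by a fixed
number.
-/

set_option autoImplicit false

namespace Pool.Agent.Results.MP_c59857_nt.WindowMoments

open Finset Filter Topology

/-- the product of the problem -/
noncomputable def P {r : ℕ} (α : Fin r → ℤ) (ε : Fin r → ℕ) (n : ℕ) : ℝ :=
  ∏ i, ((ArithmeticFunction.moebius ((n : ℤ) + α i).toNat : ℤ) : ℝ) ^ ε i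

/-- the shifts with exponent one are exactly `β, β + d, …, β + (k - 1) d` -/
def IsAP {r : ℕ} (α : Fin r → ℤ) (ε : Fin r → ℕ) (β : ℤ) (d k : ℕ) : Prop :=
  ∀ a : ℤ, (∃ i, ε i = 1 ∧ α i = a) ↔ ∃ t : ℕ, t < k ∧ a = β + t * d

/-- the constants -/
noncomputable def c (j : ℕ) : ℝ := if j ≤ 2 then 1 / ((j : ℝ) + 1) else 4 / (3 * ((j : ℝ) + 1))

open Classical in
/-- Outside one set `𝓔` of scales of logarithmic density zero: if the difference `d` is divisible by
`Q = Q(r, j, η)`, the average over `x ≤ N` of the `j`-th power of the sum of the products over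
`(x, x + H]` is at most `c j + η` times the `j`-th power of the mean of the trivial bound. -/
theorem result : ∃ 𝓔 : Set ℕ,
    Tendsto (fun X : ℕ => (∑ N ∈ Icc 1 X, if N ∈ 𝓔 then (1 : ℝ) / N else 0) / Real.log X)
      atTop (𝓝 0) ∧
    ∀ (r j : ℕ) (η : ℝ), 0 < η → ∃ Q : ℕ, 1 ≤ Q ∧
      ∀ (α : Fin r → ℤ) (ε : Fin r → ℕ) (β : ℤ) (d k : ℕ), Function.Injective α →
        (∀ i, ε i = 1 ∨ ε i = 2) → 1 ≤ k → 1 ≤ d → Q ∣ d → IsAP α ε β d k →
        ∃ C : ℕ, ∀ H N : ℕ, C ≤ H → C * H ≤ N → N ∉ 𝓔 →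
          ∑ x ∈ Icc 1 N, |∑ n ∈ Ioc x (x + H), P α ε n| ^ j ≤
            (c j + η) * ((∑ n ∈ Icc 1 N, |P α ε n|) / N * H) ^ j * N := by
  obtain ⟨E, h1, h2⟩ := Pool.Agent.R318.MU.all_exc
  refine ⟨E, h1, fun r j η hη => ?_⟩
  exact Pool.Agent.R318.MU.fin2 h2 r j η hη

end Pool.Agent.Results.MP_c59857_nt.WindowMoments
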